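import Mathlib
import Pool.Agent.H90.AK.Exponent2

/-!
# The arithmetic Kakeya inequality with an exponent below the Katz-Tao exponent `1.6751...`
-/

namespace Pool.Agent.Results.MP_169869_co.BelowKatzTao

theorem result :
    ∃ S : Finset ℚ, (-1 : ℚ) ∉ S ∧
      ∀ A : Finset (ℤ × ℤ),
        ((A.image (fun p : ℤ × ℤ => (p.1 : ℚ) + (-1) * (p.2 : ℚ))).card : ℝ) ≤
          (max ((A.image (fun p : ℤ × ℤ => (p.2 : ℚ))).card : ℝ)
              ((S.sup (fun r : ℚ =>
                  (A.image (fun p : ℤ × ℤ => (p.1 : ℚ) + r * (p.2 : ℚ))).card) : ℕ) : ℝ))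
            ^ (167377 / 100000 : ℝ) := by
  obtain ⟨a, ha, hg⟩ := Pool.Agent.H90.AK.exists_good2
  exact Pool.Agent.H90.AK.slopes_of_good hg ha

end Pool.Agent.Results.MP_169869_co.BelowKatzTao
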