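import Mathlib
import Pool.Agent.H5.SAK.MON
import Pool.Agent.H5.SAK.DR
import Pool.Agent.H47.SAK.PM
import Pool.Agent.H92.SAK.SET
import Pool.Agent.H87.SAK.FBL
import Pool.Agent.H43.SAK.Tree2
import Pool.Agent.H43.SAK.Fin2

/-!
# Arithmetic Kakeya with p-adic branching numbers, in all dimensions

For every finite `A ⊂ ℤ^d × ℤ^d` the `p` slopes `∞` and `s p^m - 1` (`0 < s < p`), `p ≥ p₀(ε)` prime, satisfy
`∑_{a ∈ A} ∏_j B_j(a)⁻¹ ≤ (max |π_r(A)|)^(1+ε)`, where `B_j(a)` is the number of classes of `y` modulo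
`p^(j+1)` over the class of `x - y` modulo `p^(j+m+1)` and the class of `y` modulo `p^j`. In particular the
arithmetic Kakeya bound holds for all `A` on which `y` is a `p`-adically `p^m`-Lipschitz function of `x - y`
(`B_j = 1`), in every dimension and at any number of scales.
-/

namespace Pool.Agent.Results.MP_169869_co.PadicBranching

theorem result : ∀ ε : ℝ, 0 < ε → ∃ p₀ : ℕ, ∀ p : ℕ, p₀ ≤ p → p.Prime →
    ∀ (m d : ℕ) (A : Finset ((Fin d → ℤ) × (Fin d → ℤ))) (J : ℕ),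
      (∀ a ∈ A, ∀ b ∈ A, (∀ i, (p : ℤ) ^ J ∣ a.2 i - b.2 i) → a.2 = b.2) →
      ∑ a ∈ A, (∏ j ∈ Finset.range J,
        (((A.filter (fun b : (Fin d → ℤ) × (Fin d → ℤ) =>
            (∀ i, (p : ℤ) ^ (j + m + 1) ∣ (b.1 i - b.2 i) - (a.1 i - a.2 i)) ∧
              ∀ i, (p : ℤ) ^ j ∣ b.2 i - a.2 i)).image
          (fun b => fun i => b.2 i % (p : ℤ) ^ (j + 1))).card : ℝ))⁻¹ ≤
        (max ((A.image (fun a => a.2)).card : ℝ)
          (((Finset.Icc 1 (p - 1)).sup (fun s : ℕ =>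
            (A.image (fun a => a.1 + ((s : ℤ) * (p : ℤ) ^ m - 1) • a.2)).card) : ℕ) : ℝ)) ^ (1 + ε) :=
  Pool.Agent.H43.SAK.fin2
    (Pool.Agent.H43.SAK.set (Pool.Agent.H43.SAK.pm Pool.Agent.H43.SAK.mon) Pool.Agent.H43.SAK.dr)
    Pool.Agent.H43.SAK.fbl Pool.Agent.H43.SAK.tree2

end Pool.Agent.Results.MP_169869_co.PadicBranching
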