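import Pool.Agent.H38.SE.Fin

/-!
# Three slopes: below the exponent 11/6 of Katz and Tao

For the slopes `0, 1, ∞` the difference projection of a finite set of integer points has at most
`N ^ (122 / 67)` elements, `122 / 67 = 1.8208... < 11 / 6`.
-/

namespace Pool.Agent.Results.MP_169869_co.ThreeSlopes

/-- For every finite `A ⊂ ℤ × ℤ`, `|π_{-1}(A)| ≤ (|π_0(A)| |π_∞(A)|)^(46/67) |π_1(A)|^(30/67)`,
and hence `|π_{-1}(A)| ≤ max(|π_0(A)|, |π_∞(A)|, |π_1(A)|)^(122/67)`. -/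
theorem result (A : Finset (ℤ × ℤ)) :
    ((A.image (fun p : ℤ × ℤ => p.1 - p.2)).card : ℝ) ≤
        (((A.image (fun p : ℤ × ℤ => p.1)).card : ℝ) *
          ((A.image (fun p : ℤ × ℤ => p.2)).card : ℝ)) ^ (46 / 67 : ℝ) *
        ((A.image (fun p : ℤ × ℤ => p.1 + p.2)).card : ℝ) ^ (30 / 67 : ℝ) ∧
    ((A.image (fun p : ℤ × ℤ => p.1 - p.2)).card : ℝ) ≤
      (max (max ((A.image (fun p : ℤ × ℤ => p.1)).card : ℝ)
        ((A.image (fun p : ℤ × ℤ => p.2)).card : ℝ))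
        ((A.image (fun p : ℤ × ℤ => p.1 + p.2)).card : ℝ)) ^ (122 / 67 : ℝ) :=
  ⟨Pool.Agent.H38.SE.three_slopes A, Pool.Agent.H38.SE.three_slopes_max A⟩

end Pool.Agent.Results.MP_169869_co.ThreeSlopes
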